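import Mathlib

set_option autoImplicit false

namespace Pool.Agent.Results.MP_1bbcfd_lc.OracleLB

open Set

/-! ### Definitions used in the statement -/

/-- A deterministic adaptive procedure on the ground set `Fin n` with access to two independence
oracles: it either stops and outputs a set, or asks the oracle number `b` whether the set `Q`
is independent and continues according to the answer. -/
inductive QTree (n : ℕ) : Type
  | out (X : Finset (Fin n)) : QTree n
  | ask (b : Bool) (Q : Finset (Fin n)) (next : Bool → QTree n) : QTree n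

/-- The output of the procedure when the oracles answer according to `O`. -/
def QTree.output {n : ℕ} (O : Bool → Finset (Fin n) → Bool) : QTree n → Finset (Fin n)
  | .out X => X
  | .ask b Q next => (next (O b Q)).output O

/-- The number of oracle calls made by the procedure when the oracles answer according to `O`. -/
def QTree.calls {n : ℕ} (O : Bool → Finset (Fin n) → Bool) : QTree n → ℕ
  | .out _ => 0
  | .ask b Q next => (next (O b Q)).calls O + 1

open Classical in
/-- The two independence oracles of the matroids `M₁` (for `true`) and `M₂` (for `false`). -/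
noncomputable def oracle {n : ℕ} (M₁ M₂ : Matroid (Fin n)) : Bool → Finset (Fin n) → Bool :=
  fun b Q => decide ((if b then M₁ else M₂).Indep (Q : Set (Fin n)))

/-- `X` has `k` elements and is contained in a common base of `M₁` and `M₂`. -/
def KFeasible {n : ℕ} (M₁ M₂ : Matroid (Fin n)) (k : ℕ) (X : Finset (Fin n)) : Prop :=
  X.card = k ∧ ∃ B : Set (Fin n), M₁.IsBase B ∧ M₂.IsBase B ∧ (X : Set (Fin n)) ⊆ B

/-- `X` is a `k`-feasible set of maximum weight. -/
def IsOptimal {n : ℕ} (M₁ M₂ : Matroid (Fin n)) (w : Fin n → ℚ) (k : ℕ)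
    (X : Finset (Fin n)) : Prop :=
  KFeasible M₁ M₂ k X ∧ ∀ Y, KFeasible M₁ M₂ k Y → ∑ e ∈ Y, w e ≤ ∑ e ∈ X, w e

/-- Valid instances: nonnegative rational weights, two matroids on the ground set `Fin n` having a
common base, and `k` at most the common rank. -/
def IsInstance (n : ℕ) (w : Fin n → ℚ) (k : ℕ) (M₁ M₂ : Matroid (Fin n)) : Prop :=
  (∀ e, 0 ≤ w e) ∧ M₁.E = univ ∧ M₂.E = univ ∧
    ∃ B : Set (Fin n), M₁.IsBase B ∧ M₂.IsBase B ∧ k ≤ B.ncard

/-- Number of bits of a rational number (numerator and denominator in binary). -/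
def bits (q : ℚ) : ℕ := Nat.size q.num.natAbs + Nat.size q.den

/-! ### Decision trees -/

/-- The queries asked in a run. -/
def QTree.asked {n : ℕ} (O : Bool → Finset (Fin n) → Bool) :
    QTree n → List (Bool × Finset (Fin n))
  | .out _ => []
  | .ask b Q next => (b, Q) :: (next (O b Q)).asked O

lemma asked_length {n : ℕ} (O : Bool → Finset (Fin n) → Bool) (T : QTree n) :
    (T.asked O).length = T.calls O := by
  induction T with
  | out X => rfl
  | ask b Q next ih => simp [QTree.asked, QTree.calls, ih]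

lemma output_congr {n : ℕ} (O O' : Bool → Finset (Fin n) → Bool) (T : QTree n)
    (h : ∀ q ∈ T.asked O, O q.1 q.2 = O' q.1 q.2) : T.output O' = T.output O := by
  induction T with
  | out X => rfl
  | ask b Q next ih =>
    have h0 : O b Q = O' b Q := h (b, Q) (by simp [QTree.asked])
    simp only [QTree.output]
    rw [← h0]
    exact ih _ (fun q hq => h q (by simp [QTree.asked, hq]))

/-! ### A sparse paving matroid -/

section SP

variable {m : ℕ}

/-- graph of the indicator function of `R`. -/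
def gr (R : Finset (Fin m)) : Finset (Fin m × Bool) :=
  Finset.univ.filter (fun p => p.2 = decide (p.1 ∈ R))

lemma mem_gr {R : Finset (Fin m)} {p : Fin m × Bool} : p ∈ gr R ↔ p.2 = decide (p.1 ∈ R) := by
  simp [gr]

lemma card_gr (R : Finset (Fin m)) : (gr R).card = m := by
  have : gr R = Finset.univ.image (fun i : Fin m => (i, decide (i ∈ R))) := by
    ext p
    simp only [mem_gr, Finset.mem_image, Finset.mem_univ, true_and]
    constructor
    · intro h; exact ⟨p.1, by rw [← h]⟩
    · rintro ⟨i, rfl⟩; rfl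
  rw [this, Finset.card_image_of_injective _ (fun a b h => (Prod.mk.inj h).1)]
  simp

lemma gr_unique {k : ℕ} {R R' : Finset (Fin m)} (hR : R.card = k) (hR' : R'.card = k)
    {I : Finset (Fin m × Bool)} {e e' : Fin m × Bool} (he' : e' ∉ I)
    (h : insert e I = gr R) (h' : insert e' I = gr R') : e' = e := by
  have hagree : ∀ j, j ≠ e.1 → (j ∈ R ↔ j ∈ R') := by
    intro j hj
    have h1 : (j, decide (j ∈ R)) ∈ gr R := mem_gr.2 rfl
    rw [← h, Finset.mem_insert] at h1
    rcases h1 with h1 | h1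
    · exact absurd (congrArg Prod.fst h1) hj
    · have h2 : (j, decide (j ∈ R)) ∈ gr R' := by rw [← h']; exact Finset.mem_insert_of_mem h1
      have h3 := mem_gr.1 h2
      simpa using h3
  have hRR : R = R' := by
    by_cases h1 : e.1 ∈ R <;> by_cases h2 : e.1 ∈ R'
    · ext j
      by_cases hj : j = e.1
      · rw [hj]; exact iff_of_true h1 h2
      · exact hagree j hj
    · exfalso
      have : R' = R.erase e.1 := by
        ext j
        by_cases hj : j = e.1
        · rw [hj]; simp [h2]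
        · simp [hj, hagree j hj]
      rw [this, Finset.card_erase_of_mem h1] at hR'
      have : 0 < R.card := Finset.card_pos.2 ⟨_, h1⟩
      omega
    · exfalso
      have : R = R'.erase e.1 := by
        ext j
        by_cases hj : j = e.1
        · rw [hj]; simp [h1]
        · simp [hj, hagree j hj]
      rw [this, Finset.card_erase_of_mem h2] at hR
      have : 0 < R'.card := Finset.card_pos.2 ⟨_, h2⟩
      omega
    · ext j
      by_cases hj : j = e.1
      · rw [hj]; exact iff_of_false h1 h2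
      · exact hagree j hj
  have h3 : e' ∈ insert e I := by
    rw [h, hRR, ← h']; exact Finset.mem_insert_self _ _
  rcases Finset.mem_insert.1 h3 with h4 | h4
  · exact h4
  · exact absurd h4 he'

/-- independent sets of the sparse paving matroid with non-bases `gr R`, `R ∈ F`. -/
def SPIndep (F : Set (Finset (Fin m))) (I : Finset (Fin m × Bool)) : Prop :=
  I.card ≤ m ∧ ∀ R ∈ F, I ≠ gr R

lemma SP_empty (hm : 0 < m) (F : Set (Finset (Fin m))) : SPIndep F ∅ := by
  refine ⟨by simp, fun R _ h => ?_⟩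
  have := card_gr R
  rw [← h] at this
  simp at this
  omega

lemma SP_subset (F : Set (Finset (Fin m))) ⦃I J : Finset (Fin m × Bool)⦄ (hJ : SPIndep F J)
    (hIJ : I ⊆ J) : SPIndep F I := by
  refine ⟨(Finset.card_le_card hIJ).trans hJ.1, fun R hR h => ?_⟩
  have h1 : J = I := (Finset.eq_of_subset_of_card_le hIJ (by rw [h, card_gr]; exact hJ.1)).symm
  exact hJ.2 R hR (h1.trans h)

lemma SP_aug {k : ℕ} (F : Set (Finset (Fin m))) (hF : ∀ R ∈ F, R.card = k)
    ⦃I J : Finset (Fin m × Bool)⦄ (hI : SPIndep F I) (hJ : SPIndep F J) (hlt : I.card < J.card) :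
    ∃ e ∈ J, e ∉ I ∧ SPIndep F (insert e I) := by
  obtain ⟨hI1, hI2⟩ := hI
  obtain ⟨hJ1, hJ2⟩ := hJ
  by_contra hcon
  push Not at hcon
  have key : ∀ e ∈ J, e ∉ I → ∃ R ∈ F, insert e I = gr R := by
    intro e heJ heI
    by_contra hno
    push Not at hno
    refine hcon e heJ heI ⟨?_, hno⟩
    rw [Finset.card_insert_of_notMem heI]; omega
  obtain ⟨e0, he0J, he0I⟩ := Finset.exists_mem_notMem_of_card_lt_card hlt
  obtain ⟨R, hR, hRe⟩ := key e0 he0J he0I
  have hsub : J ⊆ insert e0 I := by
    intro e he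
    by_cases heI : e ∈ I
    · exact Finset.mem_insert_of_mem heI
    · obtain ⟨R', hR', hRe'⟩ := key e he heI
      rw [gr_unique (hF R hR) (hF R' hR') heI hRe hRe']
      exact Finset.mem_insert_self _ _
  have hJ : J = insert e0 I := by
    refine Finset.eq_of_subset_of_card_le hsub ?_
    rw [Finset.card_insert_of_notMem he0I]; omega
  exact hJ2 R hR (hJ.trans hRe)

/-- the sparse paving matroid. -/
def SP (m k : ℕ) (hm : 0 < m) (F : Set (Finset (Fin m))) (hF : ∀ R ∈ F, R.card = k) :
    Matroid (Fin m × Bool) :=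
  (IndepMatroid.ofFinset univ (SPIndep F) (SP_empty hm F) (SP_subset F) (SP_aug F hF)
    (fun _ _ => subset_univ _)).matroid

lemma SP_indep {k : ℕ} (hm : 0 < m) (F : Set (Finset (Fin m))) (hF : ∀ R ∈ F, R.card = k)
    (I : Finset (Fin m × Bool)) : (SP m k hm F hF).Indep (I : Set _) ↔ SPIndep F I := by
  unfold SP
  rw [IndepMatroid.matroid_indep_iff, IndepMatroid.ofFinset_indep]

lemma SP_E {k : ℕ} (hm : 0 < m) (F : Set (Finset (Fin m))) (hF : ∀ R ∈ F, R.card = k) :
    (SP m k hm F hF).E = univ := rfl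

end SP

/-! ### The two matroids -/

section Inst

variable {m : ℕ}

/-- element `t` of block `i`. -/
def el (i : Fin m) (t : Fin 4) : Fin (m * 4) := finProdFinEquiv (i, t)

/-- block and position of an element. -/
def ix (a : Fin (m * 4)) : Fin m × Fin 4 := finProdFinEquiv.symm a

lemma ix_el (i : Fin m) (t : Fin 4) : ix (el i t) = (i, t) := by simp [ix, el]

lemma el_ix (a : Fin (m * 4)) : el (ix a).1 (ix a).2 = a := by
  unfold ix el
  exact finProdFinEquiv.apply_symm_apply a

lemma exists_el (a : Fin (m * 4)) : ∃ i t, a = el i t := ⟨_, _, (el_ix a).symm⟩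

lemma el_inj {i j : Fin m} {t u : Fin 4} (h : el i t = el j u) : i = j ∧ t = u := by
  have := congrArg ix h
  rw [ix_el, ix_el] at this
  exact Prod.mk.inj this

/-- labels for the first matroid. -/
def f1 (a : Fin (m * 4)) : (Fin m × Bool) ⊕ Fin m :=
  if (ix a).2 = 0 then .inl ((ix a).1, true)
  else if (ix a).2 = 1 then .inl ((ix a).1, false) else .inr (ix a).1

/-- labels for the second matroid. -/
def f2 (a : Fin (m * 4)) : Fin m × Bool :=
  if (ix a).2 = 0 ∨ (ix a).2 = 3 then ((ix a).1, true) else ((ix a).1, false)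

lemma f1_0 (i : Fin m) : f1 (el i 0) = .inl (i, true) := by simp [f1, ix_el]
lemma f1_1 (i : Fin m) : f1 (el i 1) = .inl (i, false) := by simp [f1, ix_el]
lemma f1_2 (i : Fin m) : f1 (el i 2) = .inr i := by simp [f1, ix_el]
lemma f1_3 (i : Fin m) : f1 (el i 3) = .inr i := by simp [f1, ix_el]
lemma f2_0 (i : Fin m) : f2 (el i 0) = (i, true) := by simp [f2, ix_el]
lemma f2_1 (i : Fin m) : f2 (el i 1) = (i, false) := by simp [f2, ix_el]
lemma f2_2 (i : Fin m) : f2 (el i 2) = (i, false) := by simp [f2, ix_el]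
lemma f2_3 (i : Fin m) : f2 (el i 3) = (i, true) := by simp [f2, ix_el]

/-- the first matroid. -/
def M1 (m k : ℕ) (hm : 0 < m) (F : Set (Finset (Fin m))) (hF : ∀ R ∈ F, R.card = k) :
    Matroid (Fin (m * 4)) :=
  ((SP m k hm F hF).sum (Matroid.freeOn (univ : Set (Fin m)))).comap f1

/-- the second matroid. -/
def M2 (m : ℕ) : Matroid (Fin (m * 4)) := (Matroid.freeOn (univ : Set (Fin m × Bool))).comap f2

/-- the first-two-kinds trace of a set. -/
def tr (Q : Finset (Fin (m * 4))) : Finset (Fin m × Bool) :=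
  Finset.univ.filter (fun p => el p.1 (if p.2 then 0 else 1) ∈ Q)

lemma M2_indep (Q : Set (Fin (m * 4))) : (M2 m).Indep Q ↔
    ∀ i, ¬ (el i 0 ∈ Q ∧ el i 3 ∈ Q) ∧ ¬ (el i 1 ∈ Q ∧ el i 2 ∈ Q) := by
  unfold M2
  rw [Matroid.comap_indep_iff]
  simp only [Matroid.freeOn_indep_iff, subset_univ, true_and]
  constructor
  · intro h i
    constructor
    · rintro ⟨h1, h2⟩
      have := h h1 h2 (by rw [f2_0, f2_3])
      exact absurd (el_inj this).2 (by decide)
    · rintro ⟨h1, h2⟩
      have := h h1 h2 (by rw [f2_1, f2_2])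
      exact absurd (el_inj this).2 (by decide)
  · intro h a ha b hb hab
    obtain ⟨i, t, rfl⟩ := exists_el a
    obtain ⟨j, u, rfl⟩ := exists_el b
    fin_cases t <;> fin_cases u <;>
      simp only [Fin.zero_eta, Fin.mk_one, Fin.reduceFinMk, f2_0, f2_1, f2_2, f2_3,
        Prod.mk.injEq, Bool.true_eq_false, Bool.false_eq_true, and_true, and_false] at hab ha hb ⊢
    all_goals subst hab
    all_goals first | rfl | exact ((h i).1 (And.intro ha hb)).elim |
      exact ((h i).1 (And.intro hb ha)).elim | exact ((h i).2 (And.intro ha hb)).elim |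
      exact ((h i).2 (And.intro hb ha)).elim

lemma M1_indep {k : ℕ} (hm : 0 < m) (F : Set (Finset (Fin m))) (hF : ∀ R ∈ F, R.card = k)
    (Q : Finset (Fin (m * 4))) : (M1 m k hm F hF).Indep (Q : Set _) ↔
      (tr Q).card ≤ m ∧ (∀ R ∈ F, tr Q ≠ gr R) ∧ ∀ i, ¬ (el i 2 ∈ Q ∧ el i 3 ∈ Q) := by
  unfold M1
  rw [Matroid.comap_indep_iff, Matroid.sum_indep_iff]
  have h1 : (Sum.inl ⁻¹' (f1 '' (Q : Set (Fin (m * 4)))) : Set (Fin m × Bool)) = (tr Q : Set _) := by
    ext ⟨i, b⟩
    simp only [mem_preimage, mem_image, Finset.mem_coe, tr, Finset.coe_filter, Finset.mem_univ,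
      true_and]
    constructor
    · rintro ⟨a, ha, hfa⟩
      obtain ⟨j, u, rfl⟩ := exists_el a
      fin_cases u <;> cases b <;>
      simp [f1_0, f1_1, f1_2, f1_3] at hfa
      · subst hfa; simpa using ha
      · subst hfa; simpa using ha
    · intro h
      cases b
      · exact ⟨el i 1, by simpa using h, f1_1 i⟩
      · exact ⟨el i 0, by simpa using h, f1_0 i⟩
  rw [h1, SP_indep, SPIndep, and_assoc, and_assoc]
  refine and_congr_right fun _ => and_congr_right fun _ => ?_
  simp only [Matroid.freeOn_indep_iff, subset_univ, true_and]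
  constructor
  · rintro h i ⟨h1, h2⟩
    have := h h1 h2 (by rw [f1_2, f1_3])
    exact absurd (el_inj this).2 (by decide)
  · intro h a ha b hb hab
    obtain ⟨i, t, rfl⟩ := exists_el a
    obtain ⟨j, u, rfl⟩ := exists_el b
    fin_cases t <;> fin_cases u <;>
      simp [f1_0, f1_1, f1_2, f1_3] at hab ha hb ⊢
    all_goals subst hab
    all_goals first | rfl | exact ((h i) (And.intro ha hb)).elim |
      exact ((h i) (And.intro hb ha)).elim

/-- the base given by `R`. -/
def bs (R : Finset (Fin m)) : Finset (Fin (m * 4)) :=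
  Finset.univ.filter (fun a => if (ix a).2 = 0 ∨ (ix a).2 = 2 then (ix a).1 ∈ R else (ix a).1 ∉ R)

lemma bs_0 (R : Finset (Fin m)) (i : Fin m) : el i 0 ∈ bs R ↔ i ∈ R := by simp [bs, ix_el]
lemma bs_1 (R : Finset (Fin m)) (i : Fin m) : el i 1 ∈ bs R ↔ i ∉ R := by simp [bs, ix_el]
lemma bs_2 (R : Finset (Fin m)) (i : Fin m) : el i 2 ∈ bs R ↔ i ∈ R := by simp [bs, ix_el]
lemma bs_3 (R : Finset (Fin m)) (i : Fin m) : el i 3 ∈ bs R ↔ i ∉ R := by simp [bs, ix_el]

lemma tr_bs (R : Finset (Fin m)) : tr (bs R) = gr R := by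
  ext ⟨i, b⟩
  cases b
  · simp [tr, mem_gr, bs_1]
  · simp [tr, mem_gr, bs_0]

lemma sum_blocks {M : Type*} [AddCommMonoid M] (X : Finset (Fin (m * 4)))
    (g : Fin (m * 4) → M) : ∑ a ∈ X, g a = ∑ i : Fin m,
      ((if el i 0 ∈ X then g (el i 0) else 0) + (if el i 1 ∈ X then g (el i 1) else 0) +
       (if el i 2 ∈ X then g (el i 2) else 0) + (if el i 3 ∈ X then g (el i 3) else 0)) := by
  have h1 : ∑ a ∈ X, g a = ∑ a, if a ∈ X then g a else 0 := by
    rw [Finset.sum_ite_mem, Finset.univ_inter]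
  rw [h1, ← (finProdFinEquiv (m := m) (n := 4)).sum_comp, Fintype.sum_prod_type]
  refine Finset.sum_congr rfl fun i _ => ?_
  rw [Fin.sum_univ_four]
  rfl

lemma card_blocks (X : Finset (Fin (m * 4))) : X.card = ∑ i : Fin m,
      ((if el i 0 ∈ X then 1 else 0) + (if el i 1 ∈ X then 1 else 0) +
       (if el i 2 ∈ X then 1 else 0) + (if el i 3 ∈ X then 1 else 0)) := by
  rw [Finset.card_eq_sum_ones, sum_blocks]

lemma card_tr (Q : Finset (Fin (m * 4))) : (tr Q).card = ∑ i : Fin m,
      ((if el i 0 ∈ Q then 1 else 0) + (if el i 1 ∈ Q then 1 else 0)) := by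
  unfold tr
  rw [Finset.card_filter, Fintype.sum_prod_type]
  refine Finset.sum_congr rfl fun i _ => ?_
  rw [Fintype.sum_bool]
  simp

lemma card_bs (R : Finset (Fin m)) : (bs R).card = 2 * m := by
  rw [card_blocks]
  simp only [bs_0, bs_1, bs_2, bs_3]
  rw [Finset.sum_congr rfl (g := fun _ => 2)]
  · simp [mul_comm]
  · intro i _
    by_cases h : i ∈ R <;> simp [h]

lemma M2_base (R : Finset (Fin m)) : (M2 m).IsBase (bs R : Set _) := by
  rw [Matroid.isBase_iff_maximal_indep]
  refine ⟨?_, ?_⟩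
  · rw [M2_indep]
    intro i
    simp only [Finset.mem_coe, bs_0, bs_1, bs_2, bs_3]
    tauto
  · intro J hJ hsub a ha
    rw [M2_indep] at hJ
    have hs : ∀ i t, el i t ∈ bs R → el i t ∈ J := fun i t h => hsub (Finset.mem_coe.2 h)
    obtain ⟨i, t, rfl⟩ := exists_el a
    rw [Finset.mem_coe]
    have h0 := hs i 0; have h1 := hs i 1; have h2 := hs i 2; have h3 := hs i 3
    rw [bs_0] at h0; rw [bs_1] at h1; rw [bs_2] at h2; rw [bs_3] at h3
    have hi := hJ i
    fin_cases t <;> simp only [Fin.zero_eta, Fin.mk_one, Fin.reduceFinMk, bs_0, bs_1, bs_2, bs_3]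
      at ha ⊢ <;> tauto

lemma M1_base {k : ℕ} (hm : 0 < m) (F : Set (Finset (Fin m))) (hF : ∀ R ∈ F, R.card = k)
    (R : Finset (Fin m)) (hR : R ∉ F) : (M1 m k hm F hF).IsBase (bs R : Set _) := by
  classical
  rw [Matroid.isBase_iff_maximal_indep]
  refine ⟨?_, ?_⟩
  · rw [M1_indep, tr_bs, card_gr]
    refine ⟨le_rfl, fun R' hR' h => hR ?_, fun i => ?_⟩
    · have : R = R' := by
        ext i
        have h1 : (i, decide (i ∈ R)) ∈ gr R' := by rw [← h]; exact mem_gr.2 rfl
        have h2 := mem_gr.1 h1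
        simpa using h2
      rw [this]; exact hR'
    · rw [bs_2, bs_3]; tauto
  · intro J hJ hsub
    obtain ⟨Jf, rfl⟩ : ∃ Jf : Finset (Fin (m * 4)), J = Jf := ⟨J.toFinset, by simp⟩
    rw [M1_indep] at hJ
    have hsub' : bs R ⊆ Jf := Finset.coe_subset.1 hsub
    have htr : tr (bs R) = tr Jf := by
      refine Finset.eq_of_subset_of_card_le ?_ ?_
      · intro p hp
        simp only [tr, Finset.mem_filter, Finset.mem_univ, true_and] at hp ⊢
        exact hsub' hp
      · rw [tr_bs, card_gr]; exact hJ.1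
    intro a ha
    rw [Finset.mem_coe] at ha ⊢
    obtain ⟨i, t, rfl⟩ := exists_el a
    have h2 := hsub' (x := el i 2)
    have h3 := hsub' (x := el i 3)
    have hi := hJ.2.2 i
    rw [bs_2] at h2
    rw [bs_3] at h3
    have hT : ∀ b : Bool, el i (if b then 0 else 1) ∈ Jf → el i (if b then 0 else 1) ∈ bs R := by
      intro b hb
      have : (i, b) ∈ tr Jf := by
        simp only [tr, Finset.mem_filter, Finset.mem_univ, true_and]; exact hb
      rw [← htr] at this
      simpa only [tr, Finset.mem_filter, Finset.mem_univ, true_and] using this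
    fin_cases t
    · exact hT true ha
    · exact hT false ha
    · simp only [Fin.reduceFinMk] at ha ⊢
      rw [bs_2]; tauto
    · simp only [Fin.reduceFinMk] at ha ⊢
      rw [bs_3]; tauto

lemma common_base {k : ℕ} (hm : 0 < m) (F : Set (Finset (Fin m))) (hF : ∀ R ∈ F, R.card = k)
    (B : Finset (Fin (m * 4))) (h1 : (M1 m k hm F hF).IsBase (B : Set _))
    (h2 : (M2 m).IsBase (B : Set _)) : ∃ R, R ∉ F ∧ B = bs R := by
  classical
  have hi1 := (M1_indep hm F hF B).1 h1.indep
  have hi2 := (M2_indep (m := m) (B : Set (Fin (m * 4)))).1 h2.indep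
  have hit : ∀ i, (el i 0 ∈ B ∨ el i 3 ∈ B) ∧ (el i 1 ∈ B ∨ el i 2 ∈ B) := by
    intro i
    constructor
    · by_contra hcon
      push Not at hcon
      have hind : (M2 m).Indep ((insert (el i 0) B : Finset _) : Set _) := by
        rw [M2_indep]
        intro j
        have hj := hi2 j
        simp only [Finset.mem_coe, Finset.mem_insert] at hj ⊢
        constructor
        · rintro ⟨ha | ha, hb | hb⟩
          · exact absurd (el_inj hb).2 (by decide)
          · obtain ⟨rfl, -⟩ := el_inj ha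
            exact hcon.2 hb
          · exact absurd (el_inj hb).2 (by decide)
          · exact hj.1 ⟨ha, hb⟩
        · rintro ⟨ha | ha, hb | hb⟩
          · exact absurd (el_inj ha).2 (by decide)
          · exact absurd (el_inj ha).2 (by decide)
          · exact absurd (el_inj hb).2 (by decide)
          · exact hj.2 ⟨ha, hb⟩
      have := h2.eq_of_subset_indep hind (by simp)
      rw [Finset.coe_inj] at this
      apply hcon.1
      rw [this]; exact Finset.mem_insert_self _ _
    · by_contra hcon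
      push Not at hcon
      have hind : (M2 m).Indep ((insert (el i 1) B : Finset _) : Set _) := by
        rw [M2_indep]
        intro j
        have hj := hi2 j
        simp only [Finset.mem_coe, Finset.mem_insert] at hj ⊢
        constructor
        · rintro ⟨ha | ha, hb | hb⟩
          · exact absurd (el_inj hb).2 (by decide)
          · exact absurd (el_inj ha).2 (by decide)
          · exact absurd (el_inj hb).2 (by decide)
          · exact hj.1 ⟨ha, hb⟩
        · rintro ⟨ha | ha, hb | hb⟩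
          · exact absurd (el_inj hb).2 (by decide)
          · obtain ⟨rfl, -⟩ := el_inj ha
            exact hcon.2 hb
          · exact absurd (el_inj hb).2 (by decide)
          · exact hj.2 ⟨ha, hb⟩
      have := h2.eq_of_subset_indep hind (by simp)
      rw [Finset.coe_inj] at this
      apply hcon.1
      rw [this]; exact Finset.mem_insert_self _ _
  simp only [Finset.mem_coe] at hi2
  -- counting
  have hle : ∀ i ∈ (Finset.univ : Finset (Fin m)),
      (if el i 2 ∈ B then 1 else 0) + (if el i 3 ∈ B then 1 else 0) ≤ 1 := by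
    intro i _
    have := hi1.2.2 i
    split_ifs <;> simp_all
  have htot : ∑ i : Fin m, (((if el i 0 ∈ B then 1 else 0) + (if el i 1 ∈ B then 1 else 0)) +
      ((if el i 2 ∈ B then 1 else 0) + (if el i 3 ∈ B then 1 else 0))) = ∑ i : Fin m, 2 := by
    refine Finset.sum_congr rfl fun i _ => ?_
    have ha := hi2 i
    have hb := hit i
    by_cases c0 : el i 0 ∈ B <;> by_cases c1 : el i 1 ∈ B <;> by_cases c2 : el i 2 ∈ B <;>
      by_cases c3 : el i 3 ∈ B <;> simp_all
  rw [Finset.sum_add_distrib, ← card_tr] at htot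
  have hsum : ∑ i : Fin m, ((if el i 2 ∈ B then 1 else 0) + (if el i 3 ∈ B then 1 else 0))
      = ∑ i : Fin m, 1 := by
    apply le_antisymm (Finset.sum_le_sum hle)
    have := hi1.1
    simp only [Finset.sum_const, Finset.card_univ, Fintype.card_fin, smul_eq_mul] at htot ⊢
    omega
  have hone := (Finset.sum_eq_sum_iff_of_le hle).1 hsum
  have h23 : ∀ i, el i 2 ∈ B ∨ el i 3 ∈ B := by
    intro i
    by_contra hcon
    push Not at hcon
    have hc := hone i (Finset.mem_univ _)
    rw [if_neg hcon.1, if_neg hcon.2] at hc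
    exact absurd hc (by decide)
  have hx : ∀ i, (el i 0 ∈ B ∨ el i 3 ∈ B) ∧ (el i 1 ∈ B ∨ el i 2 ∈ B) ∧
      (el i 2 ∈ B ∨ el i 3 ∈ B) ∧ ¬ (el i 0 ∈ B ∧ el i 3 ∈ B) ∧ ¬ (el i 1 ∈ B ∧ el i 2 ∈ B) ∧
      ¬ (el i 2 ∈ B ∧ el i 3 ∈ B) :=
    fun i => ⟨(hit i).1, (hit i).2, h23 i, (hi2 i).1, (hi2 i).2, hi1.2.2 i⟩
  have e1 : ∀ i, el i 1 ∈ B ↔ el i 0 ∉ B := fun i => by have := hx i; tauto
  have e2 : ∀ i, el i 2 ∈ B ↔ el i 0 ∈ B := fun i => by have := hx i; tauto
  have e3 : ∀ i, el i 3 ∈ B ↔ el i 0 ∉ B := fun i => by have := hx i; tauto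
  refine ⟨Finset.univ.filter (fun i => el i 0 ∈ B), ?_, ?_⟩
  · intro hRF
    refine hi1.2.1 _ hRF ?_
    ext ⟨i, b⟩
    cases b
    · simp [tr, mem_gr, e1]
    · simp [tr, mem_gr]
  · ext a
    obtain ⟨i, t, rfl⟩ := exists_el a
    fin_cases t
    · simp only [Fin.zero_eta, bs_0, Finset.mem_filter, Finset.mem_univ, true_and]
    · simp only [Fin.mk_one, bs_1, Finset.mem_filter, Finset.mem_univ, true_and, e1]
    · simp only [Fin.reduceFinMk, bs_2, Finset.mem_filter, Finset.mem_univ, true_and, e2]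
    · simp only [Fin.reduceFinMk, bs_3, Finset.mem_filter, Finset.mem_univ, true_and, e3]

/-! ### Weights -/

/-- natural-number weights. -/
def wN (a : Fin (m * 4)) : ℕ :=
  if (ix a).2 = 0 then 3 else if (ix a).2 = 2 then 0 else 2

lemma wN_0 (i : Fin m) : wN (el i 0) = 3 := by simp [wN, ix_el]
lemma wN_1 (i : Fin m) : wN (el i 1) = 2 := by simp [wN, ix_el]
lemma wN_2 (i : Fin m) : wN (el i 2) = 0 := by simp [wN, ix_el]
lemma wN_3 (i : Fin m) : wN (el i 3) = 2 := by simp [wN, ix_el]

lemma card_eq_sum (R : Finset (Fin m)) : R.card = ∑ i : Fin m, if i ∈ R then 1 else 0 := by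
  rw [Finset.sum_boole, Nat.cast_id]
  congr 1
  ext i; simp

lemma weight_le {k : ℕ} (hk : m = 2 * k) (R : Finset (Fin m)) (hR : R.card ≠ k)
    (X : Finset (Fin (m * 4))) (hX : X ⊆ bs R) (hc : X.card = 3 * k) :
    ∑ a ∈ X, wN a < 7 * k := by
  have hx : ∀ i t, el i t ∈ X → el i t ∈ bs R := fun i t h => hX h
  have b1 : ∑ a ∈ X, wN a ≤ 2 * X.card + R.card := by
    rw [sum_blocks, card_blocks, card_eq_sum R, Finset.mul_sum, ← Finset.sum_add_distrib]
    refine Finset.sum_le_sum fun i _ => ?_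
    simp only [wN_0, wN_1, wN_2, wN_3]
    have h0 := hx i 0
    rw [bs_0] at h0
    split_ifs <;> simp_all
  have b2 : ∑ a ∈ X, wN a + R.card ≤ 4 * m := by
    have : 4 * m = ∑ i : Fin m, 4 := by simp [mul_comm]
    rw [sum_blocks, card_eq_sum R, this, ← Finset.sum_add_distrib]
    refine Finset.sum_le_sum fun i _ => ?_
    simp only [wN_0, wN_1, wN_2, wN_3]
    have h0 := hx i 0
    have h1 := hx i 1
    have h3 := hx i 3
    rw [bs_0] at h0
    rw [bs_1] at h1
    rw [bs_3] at h3
    split_ifs <;> simp_all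
  omega

/-- the heavy set inside `bs A`. -/
def heavy (A : Finset (Fin m)) : Finset (Fin (m * 4)) :=
  (bs A).filter (fun a => (ix a).2 ≠ 2)

lemma heavy_0 (A : Finset (Fin m)) (i : Fin m) : el i 0 ∈ heavy A ↔ i ∈ A := by
  simp [heavy, bs_0, ix_el]
lemma heavy_1 (A : Finset (Fin m)) (i : Fin m) : el i 1 ∈ heavy A ↔ i ∉ A := by
  simp [heavy, bs_1, ix_el]
lemma heavy_2 (A : Finset (Fin m)) (i : Fin m) : el i 2 ∉ heavy A := by
  simp [heavy, ix_el]
lemma heavy_3 (A : Finset (Fin m)) (i : Fin m) : el i 3 ∈ heavy A ↔ i ∉ A := by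
  simp [heavy, bs_3, ix_el]

lemma heavy_card {k : ℕ} (hk : m = 2 * k) (A : Finset (Fin m)) (hA : A.card = k) :
    (heavy A).card = 3 * k := by
  have : (heavy A).card + A.card = 2 * m := by
    have h2 : 2 * m = ∑ i : Fin m, 2 := by simp [mul_comm]
    rw [card_blocks, card_eq_sum A, h2, ← Finset.sum_add_distrib]
    refine Finset.sum_congr rfl fun i _ => ?_
    simp only [heavy_0, heavy_1, heavy_2, heavy_3, if_false]
    split_ifs <;> simp_all
  omega

lemma heavy_weight {k : ℕ} (hk : m = 2 * k) (A : Finset (Fin m)) (hA : A.card = k) :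
    ∑ a ∈ heavy A, wN a = 7 * k := by
  have : ∑ a ∈ heavy A, wN a + A.card = 4 * m := by
    have h2 : 4 * m = ∑ i : Fin m, 4 := by simp [mul_comm]
    rw [sum_blocks, card_eq_sum A, h2, ← Finset.sum_add_distrib]
    refine Finset.sum_congr rfl fun i _ => ?_
    simp only [heavy_0, heavy_1, heavy_2, heavy_3, if_false, wN_0, wN_1, wN_3]
    split_ifs <;> simp_all
  omega

lemma bits_wN (a : Fin (m * 4)) : bits ((wN a : ℕ) : ℚ) ≤ 3 := by
  unfold wN bits
  split_ifs <;> simp <;> decide

end Inst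

/-- polynomials are eventually smaller than central binomial coefficients. -/
lemma growth (C : ℕ) : ∃ k : ℕ, 1 ≤ k ∧ C * (32 * k + 1) ^ C < Nat.choose (2 * k) k := by
  have h1 := tendsto_pow_const_div_const_pow_of_one_lt (C + 1) (r := 4) (by norm_num)
  have hpos : (0 : ℝ) < 1 / ((C : ℝ) * 33 ^ C + 1) := by positivity
  have h2 := (h1.eventually (gt_mem_nhds hpos)).and (Filter.eventually_ge_atTop 4)
  obtain ⟨k, hk, hk4⟩ := h2.exists
  refine ⟨k, by omega, ?_⟩
  have h4 : (0 : ℝ) < 4 ^ k := by positivity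
  have h5 : (0 : ℝ) < (C : ℝ) * 33 ^ C + 1 := by positivity
  rw [div_lt_div_iff₀ h4 h5, one_mul] at hk
  have h6 : ((k ^ (C + 1) * (C * 33 ^ C + 1) : ℕ) : ℝ) < ((4 ^ k : ℕ) : ℝ) := by
    push_cast; exact hk
  have h7 : k ^ (C + 1) * (C * 33 ^ C + 1) < 4 ^ k := by exact_mod_cast h6
  have h8 : (32 * k + 1) ^ C ≤ (33 * k) ^ C := Nat.pow_le_pow_left (by omega) C
  have h9 : k * (C * (32 * k + 1) ^ C) ≤ k ^ (C + 1) * (C * 33 ^ C + 1) := by
    calc k * (C * (32 * k + 1) ^ C) ≤ k * (C * (33 * k) ^ C) :=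
          Nat.mul_le_mul_left _ (Nat.mul_le_mul_left _ h8)
      _ = k ^ (C + 1) * (C * 33 ^ C) := by rw [mul_pow]; ring
      _ ≤ _ := Nat.mul_le_mul_left _ (Nat.le_succ _)
  have h10 := Nat.four_pow_lt_mul_centralBinom k hk4
  rw [Nat.centralBinom_eq_two_mul_choose] at h10
  exact lt_of_mul_lt_mul_left (h9.trans_lt (h7.trans h10)) (Nat.zero_le k)

/-- There is no algorithm for the maximum-weight `k`-feasible set problem, with the matroids given
by independence oracles, that makes a number of oracle calls bounded by a polynomial in `|S|` and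
the bit size of the weights. -/
theorem result : ¬ ∃ (A : ∀ n : ℕ, (Fin n → ℚ) → ℕ → QTree n) (C : ℕ),
    ∀ (n : ℕ) (w : Fin n → ℚ) (k : ℕ) (M₁ M₂ : Matroid (Fin n)), IsInstance n w k M₁ M₂ →
      (A n w k).calls (oracle M₁ M₂) ≤ C * (n + ∑ e, bits (w e) + 1) ^ C ∧
      IsOptimal M₁ M₂ w k ((A n w k).output (oracle M₁ M₂)) := by
  classical
  rintro ⟨A, C, hA⟩
  obtain ⟨k, hk1, hk⟩ := growth C
  obtain ⟨m, hm⟩ : ∃ m, m = 2 * k := ⟨_, rfl⟩
  have hm0 : 0 < m := by omega
  set w : Fin (m * 4) → ℚ := fun a => ((wN a : ℕ) : ℚ) with hw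
  set T := A (m * 4) w (3 * k) with hT
  let F0 : Set (Finset (Fin m)) := {R | R.card = k}
  have hF0 : ∀ R ∈ F0, R.card = k := fun R hR => hR
  -- instances
  have hinst : ∀ (F : Set (Finset (Fin m))) (hF : ∀ R ∈ F, R.card = k),
      IsInstance (m * 4) w (3 * k) (M1 m k hm0 F hF) (M2 m) := by
    intro F hF
    refine ⟨fun e => by simp [hw], ?_, ?_, (bs (∅ : Finset (Fin m)) : Finset (Fin (m * 4))), M1_base hm0 F hF ∅ ?_,
      M2_base (m := m) ∅, ?_⟩
    · unfold M1
      rw [Matroid.comap_ground_eq, Matroid.sum_ground, SP_E, Matroid.freeOn_ground]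
      ext a
      simp only [mem_preimage, mem_union, mem_image, mem_univ, true_and, iff_true]
      rcases f1 a with b | b
      · exact Or.inl ⟨b, rfl⟩
      · exact Or.inr ⟨b, rfl⟩
    · unfold M2
      rw [Matroid.comap_ground_eq, Matroid.freeOn_ground, preimage_univ]
    · intro h
      have := hF _ h
      simp at this
      omega
    · rw [Set.ncard_coe_finset, card_bs]; omega
  have hbits : ∑ e, bits (w e) ≤ 3 * (m * 4) := by
    refine (Finset.sum_le_card_nsmul _ _ 3 (fun e _ => bits_wN e)).trans ?_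
    simp [mul_comm]
  have hk' : C * (32 * k + 1) ^ C < Nat.choose m k := by rw [hm]; exact hk
  have hcalls : T.calls (oracle (M1 m k hm0 F0 hF0) (M2 m)) < Nat.choose m k := by
    refine lt_of_le_of_lt (hA _ _ _ _ _ (hinst F0 hF0)).1 (lt_of_le_of_lt ?_ hk')
    refine Nat.mul_le_mul_left _ (Nat.pow_le_pow_left ?_ _)
    omega
  set O := oracle (M1 m k hm0 F0 hF0) (M2 m) with hO
  -- an untouched set
  let touch : Bool × Finset (Fin (m * 4)) → Finset (Fin m) :=
    fun q => Finset.univ.filter (fun i => el i 0 ∈ q.2)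
  obtain ⟨A0, hA0, hA0'⟩ : ∃ A0 ∈ Finset.powersetCard k (Finset.univ : Finset (Fin m)),
      A0 ∉ ((T.asked O).map touch).toFinset := by
    apply Finset.exists_mem_notMem_of_card_lt_card
    rw [Finset.card_powersetCard, Finset.card_univ, Fintype.card_fin]
    refine lt_of_le_of_lt (List.toFinset_card_le _) ?_
    rw [List.length_map, asked_length]
    exact hcalls
  have hA0c : A0.card = k := (Finset.mem_powersetCard.1 hA0).2
  let F1 : Set (Finset (Fin m)) := {R | R.card = k ∧ R ≠ A0}
  have hF1 : ∀ R ∈ F1, R.card = k := fun R hR => hR.1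
  have hagree : ∀ q ∈ T.asked O, O q.1 q.2 = (oracle (M1 m k hm0 F1 hF1) (M2 m)) q.1 q.2 := by
    intro q hq
    have hne : tr q.2 ≠ gr A0 := by
      intro h
      apply hA0'
      rw [List.mem_toFinset, List.mem_map]
      refine ⟨q, hq, ?_⟩
      ext i
      simp only [touch, Finset.mem_filter, Finset.mem_univ, true_and]
      have h1 : ((i, true) : Fin m × Bool) ∈ tr q.2 ↔ (i, true) ∈ gr A0 := by rw [h]
      simpa [tr, mem_gr] using h1
    rw [hO]
    unfold oracle
    cases q.1
    · rfl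
    · simp only [if_true]
      congr 1
      rw [eq_iff_iff, M1_indep, M1_indep]
      refine and_congr_right fun _ => and_congr_left fun _ => ?_
      constructor
      · intro h R hR; exact h R hR.1
      · intro h R hR
        by_cases hRA : R = A0
        · rw [hRA]; exact hne
        · exact h R ⟨hR, hRA⟩
  have hout := output_congr O _ T hagree
  have opt0 := (hA _ _ _ _ _ (hinst F0 hF0)).2
  have opt1 := (hA _ _ _ _ _ (hinst F1 hF1)).2
  rw [← hT, ← hO] at opt0
  rw [← hT, hout] at opt1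
  obtain ⟨⟨hc, B, hB1, hB2, hXB⟩, -⟩ := opt0
  obtain ⟨Bf, rfl⟩ : ∃ Bf : Finset (Fin (m * 4)), B = Bf := ⟨B.toFinset, by simp⟩
  obtain ⟨R, hR, rfl⟩ := common_base hm0 F0 hF0 Bf hB1 hB2
  have hlt := weight_le hm R hR (T.output O) (Finset.coe_subset.1 hXB) hc
  have hfeas : KFeasible (M1 m k hm0 F1 hF1) (M2 m) (3 * k) (heavy A0) := by
    refine ⟨heavy_card hm A0 hA0c, (bs A0 : Finset (Fin (m * 4))),
      M1_base hm0 F1 hF1 A0 (fun h => h.2 rfl), M2_base A0, ?_⟩
    exact Finset.coe_subset.2 (Finset.filter_subset _ _)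
  have hge := opt1.2 _ hfeas
  have h7 := heavy_weight hm A0 hA0c
  have hge' : ((∑ a ∈ heavy A0, wN a : ℕ) : ℚ) ≤ ((∑ a ∈ T.output O, wN a : ℕ) : ℚ) := by
    push_cast
    exact hge
  have hge'' : ∑ a ∈ heavy A0, wN a ≤ ∑ a ∈ T.output O, wN a := by exact_mod_cast hge'
  omega

end Pool.Agent.Results.MP_1bbcfd_lc.OracleLB
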